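import Pool.Agent.Helper981.KP.Final

set_option autoImplicit false

/-!
Every linear information inequality with rational coefficients, every nonnegative real combination
of such inequalities, and every real one in the interior of the cone of all linear information
inequalities, holds for prefix complexity with precision `O(1)`.
-/

namespace Pool.Agent.Results.MP_fd63cb_lc.RationalInequalities

open Finset

/-- `U` is a prefix-free machine: a partial computable map on binary strings such that no program
in its domain is a proper initial segment of another program in its domain. -/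
def PrefixFreeMachine (U : List Bool →. List Bool) : Prop :=
  Partrec U ∧ ∀ p q : List Bool, (U p).Dom → (U q).Dom → p <+: q → p = q

/-- `U` is an optimal prefix-free machine: it is prefix-free, and for every prefix-free machine
`V` there is `c` such that whatever `V` produces from a program `p`, `U` produces from some
program of length at most `|p| + c`. -/
def OptimalMachine (U : List Bool →. List Bool) : Prop :=
  PrefixFreeMachine U ∧ ∀ V : List Bool →. List Bool, PrefixFreeMachine V →
    ∃ c : ℕ, ∀ p x : List Bool, x ∈ V p → ∃ q : List Bool, x ∈ U q ∧ q.length ≤ p.length + c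

/-- prefix complexity of the string `x`: the least length of a program `p` with `U(p) = x` -/
noncomputable def KP (U : List Bool →. List Bool) (x : List Bool) : ℕ :=
  sInf {l : ℕ | ∃ p : List Bool, p.length = l ∧ x ∈ U p}

/-- the probability that the random variables `ξ i`, `i ∈ S`, take the values `y i`, when the
tuple `ξ` has distribution `p` on `Fin n → Fin (m+1)` -/
def marg {n m : ℕ} (p : (Fin n → Fin (m + 1)) → ℝ) (S : Finset (Fin n))
    (y : Fin n → Fin (m + 1)) : ℝ :=
  ∑ z : Fin n → Fin (m + 1), if (∀ i ∈ S, z i = y i) then p z else 0

/-- Shannon entropy (in nats) of the subtuple `ξ_S`; the possible values of `ξ_S` are indexed by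
the `y` that vanish outside `S`. -/
noncomputable def entropy {n m : ℕ} (p : (Fin n → Fin (m + 1)) → ℝ) (S : Finset (Fin n)) : ℝ :=
  ∑ y : Fin n → Fin (m + 1), if (∀ i, i ∉ S → y i = 0) then Real.negMulLog (marg p S y) else 0

/-- `∑_S lam S * H(ξ_S) ≥ 0` for all jointly distributed random variables `ξ_1, ..., ξ_n` with
finite range -/
def InfoInequality (n : ℕ) (lam : Finset (Fin n) → ℝ) : Prop :=
  ∀ (m : ℕ) (p : (Fin n → Fin (m + 1)) → ℝ), (∀ z, 0 ≤ p z) → (∑ z, p z) = 1 →
    0 ≤ ∑ S : Finset (Fin n), lam S * entropy p S

/-- the subtuple `x_S`, in increasing order of indices -/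
def subtuple {n : ℕ} (x : Fin n → List Bool) (S : Finset (Fin n)) : List (List Bool) :=
  ((List.finRange n).filter (fun i => decide (i ∈ S))).map x

/-- `∑_S lam S * KP(x_S)` is bounded below over all tuples of strings -/
def HoldsForKP (U : List Bool →. List Bool) (enc : List (List Bool) → List Bool) (n : ℕ)
    (lam : Finset (Fin n) → ℝ) : Prop :=
  ∃ c : ℝ, ∀ x : Fin n → List Bool,
    -c ≤ ∑ S : Finset (Fin n), lam S * (KP U (enc (subtuple x S)) : ℝ)

theorem rational (U : List Bool →. List Bool) (hU : OptimalMachine U)
    (enc : List (List Bool) → List Bool) (henc : Computable enc) (hinj : Function.Injective enc)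
    (n : ℕ) (q : Finset (Fin n) → ℚ) (h : InfoInequality n (fun S => (q S : ℝ))) :
    HoldsForKP U enc n (fun S => (q S : ℝ)) :=
  Pool.Agent.Helper981.KP.rat_machine hU enc henc hinj n q h

/-- If the real coefficient vector `lam` is a finite nonnegative real combination of rational
coefficient vectors of linear information inequalities, then the inequality with coefficients
`lam` holds for prefix complexity with precision `O(1)`. -/
theorem combination (U : List Bool →. List Bool) (hU : OptimalMachine U)
    (enc : List (List Bool) → List Bool) (henc : Computable enc) (hinj : Function.Injective enc)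
    (n J : ℕ) (q : Fin J → Finset (Fin n) → ℚ) (r : Fin J → ℝ) (hr : ∀ j, 0 ≤ r j)
    (hq : ∀ j, InfoInequality n (fun S => (q j S : ℝ))) :
    HoldsForKP U enc n (fun S => ∑ j, r j * (q j S : ℝ)) := by
  have h := fun j => rational U hU enc henc hinj n (q j) (hq j)
  choose c hc using h
  refine ⟨∑ j, r j * c j, fun x => ?_⟩
  have h1 : ∑ S : Finset (Fin n), (∑ j, r j * (q j S : ℝ)) * (KP U (enc (subtuple x S)) : ℝ) =
      ∑ j, r j * ∑ S : Finset (Fin n), (q j S : ℝ) * (KP U (enc (subtuple x S)) : ℝ) := by
    simp only [Finset.sum_mul, Finset.mul_sum]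
    rw [Finset.sum_comm]
    refine Finset.sum_congr rfl fun j _ => Finset.sum_congr rfl fun S _ => ?_
    ring
  rw [h1, ← Finset.sum_neg_distrib]
  refine Finset.sum_le_sum fun j _ => ?_
  rw [← mul_neg]
  exact mul_le_mul_of_nonneg_left (hc j x) (hr j)

theorem entropy_nonneg {n m : ℕ} (p : (Fin n → Fin (m + 1)) → ℝ) (hp : ∀ z, 0 ≤ p z)
    (hp1 : (∑ z, p z) = 1) (S : Finset (Fin n)) : 0 ≤ entropy p S := by
  classical
  unfold entropy
  refine Finset.sum_nonneg fun y _ => ?_
  split_ifs
  · apply Real.negMulLog_nonneg
    · exact Finset.sum_nonneg fun z _ => by split_ifs; exacts [hp z, le_refl _]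
    · rw [← hp1]
      exact Finset.sum_le_sum fun z _ => by split_ifs; exacts [le_refl _, hp z]
  · exact le_refl _

/-- **Linear information inequalities for prefix complexity with precision `O(1)`.**
For every optimal prefix-free machine `U`, every computable injective encoding of tuples and every
`n`, a linear information inequality with real coefficients `lam` holds for `KP` with precision
`O(1)` whenever `lam` is a finite nonnegative real combination of linear information inequalities
with rational coefficients (for instance, `lam` itself is rational), and also whenever `lam` lies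
in the interior of the cone of linear information inequalities. -/
theorem result : ∀ U : List Bool →. List Bool, OptimalMachine U →
    ∀ enc : List (List Bool) → List Bool, Computable enc → Function.Injective enc →
    ∀ (n : ℕ) (lam : Finset (Fin n) → ℝ),
      ((∃ (J : ℕ) (q : Fin J → Finset (Fin n) → ℚ) (r : Fin J → ℝ), (∀ j, 0 ≤ r j) ∧
          (∀ j, InfoInequality n (fun S => (q j S : ℝ))) ∧
          ∀ S, lam S = ∑ j, r j * (q j S : ℝ)) ∨
        lam ∈ interior {l : Finset (Fin n) → ℝ | InfoInequality n l}) →
      HoldsForKP U enc n lam := by
  rintro U hU enc henc hinj n lam (⟨J, q, r, hr, hq, hlam⟩ | hint)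
  · have h := combination U hU enc henc hinj n J q r hr hq
    have e : lam = fun S => ∑ j, r j * (q j S : ℝ) := funext hlam
    rw [e]
    exact h
  · rw [mem_interior_iff_mem_nhds, Metric.mem_nhds_iff] at hint
    obtain ⟨ε, hε, hball⟩ := hint
    have hl : InfoInequality n (fun S => lam S - ε / 2) := by
      apply hball
      rw [Metric.mem_ball, dist_pi_lt_iff hε]
      intro S
      rw [Real.dist_eq, abs_lt]
      constructor <;> linarith
    have hex : ∀ S, ∃ q : ℚ, lam S - ε / 2 < (q : ℝ) ∧ (q : ℝ) < lam S := fun S =>
      exists_rat_btwn (by linarith)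
    choose q hq1 hq2 using hex
    have hv : InfoInequality n (fun S => (q S : ℝ)) := by
      intro m p hp hp1
      refine (hl m p hp hp1).trans (Finset.sum_le_sum fun S _ => ?_)
      exact mul_le_mul_of_nonneg_right (hq1 S).le (entropy_nonneg p hp hp1 S)
    obtain ⟨c, hc⟩ := rational U hU enc henc hinj n q hv
    refine ⟨c, fun x => (hc x).trans ?_⟩
    exact Finset.sum_le_sum fun S _ => mul_le_mul_of_nonneg_right (hq2 S).le (Nat.cast_nonneg _)

end Pool.Agent.Results.MP_fd63cb_lc.RationalInequalities
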